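import Pool.Agent.Lib.MP_f1864b_gt.Statement

set_option autoImplicit false

/-!
# A closed aspherical 5-manifold with central fundamental group element which does not bound

There is a closed connected orientable smooth aspherical 5-manifold whose fundamental group has
non-trivial centre and which is not the boundary of a compact smooth 6-manifold (orientable or
not). In particular its oriented bordism class is non-zero, for both orientations.
-/

namespace Pool.Agent.Results.MP_f1864b_gt.NonBounding

open Pool.Agent.Dold

universe v

theorem result : ∃ (M : Type) (_ : TopologicalSpace M)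
    (_ : ChartedSpace (EuclideanSpace ℝ (Fin 5)) M),
    ClosedConnectedManifold 5 M ∧ Orientable 5 M ∧ Aspherical M ∧
      (∀ x : M, Subgroup.center (FundamentalGroup M x) ≠ ⊥) ∧ ¬ Bounds.{0, v} 5 M := by
  obtain ⟨M, i1, i2, i3, i4, i5, i6, hO, hA, hC, hB⟩ := exists_nonbounding.{v}
  exact ⟨M, i1, i2, ⟨i3, i4, i5, i6⟩, orientable_of hO, hA, hC,
    fun h => hB (boundsSmooth_of_bounds h)⟩

end Pool.Agent.Results.MP_f1864b_gt.NonBounding
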